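import Mathlib

set_option autoImplicit false

open scoped Matrix.Norms.L2Operator
open Matrix

namespace Pool.Agent.H55Z.Opp

abbrev M3 := Matrix (Fin 3) (Fin 3) ℂ

/-- diagonal entries of the three twisting unitaries -/
noncomputable def dd (d a : Fin 3) : ℂ :=
  if (d = 1 ∧ a = 0) ∨ (d = 2 ∧ a = 2) then Complex.I else 1

lemma dd_mul_star (d a : Fin 3) : star (dd d a) * dd d a = 1 := by
  unfold dd; split_ifs <;> simp

lemma dd_mul_star' (d a : Fin 3) : dd d a * star (dd d a) = 1 := by
  rw [mul_comm]; exact dd_mul_star d a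

lemma norm_dd (d a : Fin 3) : ‖dd d a‖ = 1 := by
  unfold dd; split_ifs <;> simp

/-- the twist `m ↦ D m D*` -/
noncomputable def tw (d : Fin 3) : M3 →⋆ₐ[ℂ] M3 where
  toFun m := Matrix.of fun a b => dd d a * m a b * star (dd d b)
  map_one' := by
    ext a b
    by_cases h : a = b
    · subst h; simpa using dd_mul_star' d a
    · simp [h]
  map_mul' m m' := by
    ext a b
    simp only [Matrix.of_apply, Matrix.mul_apply, Finset.mul_sum, Finset.sum_mul]
    refine Finset.sum_congr rfl fun c _ => ?_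
    have := dd_mul_star d c
    linear_combination (-(dd d a * m a c * m' c b * star (dd d b))) * this
  map_zero' := by ext a b; simp
  map_add' m m' := by ext a b; simp [mul_add, add_mul]
  commutes' r := by
    ext a b
    by_cases h : a = b
    · subst h
      simp only [Matrix.of_apply, Matrix.algebraMap_matrix_apply, if_true]
      have := dd_mul_star' d a
      linear_combination (algebraMap ℂ ℂ r) * this
    · simp [Matrix.algebraMap_matrix_apply, h]
  map_star' m := by
    ext a b
    simp only [Matrix.of_apply, Matrix.star_apply, star_mul', star_star]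
    ring

lemma tw_apply (d : Fin 3) (m : M3) (a b : Fin 3) :
    tw d m a b = dd d a * m a b * star (dd d b) := rfl

lemma tw_zero (m : M3) : tw 0 m = m := by
  ext a b; simp [tw_apply, dd]

lemma tw_injective (d : Fin 3) : Function.Injective (tw d) := by
  intro m m' h
  ext a b
  have h1 := congrFun (congrFun h a) b
  rw [tw_apply, tw_apply] at h1
  have ha := dd_mul_star d a
  have hb := dd_mul_star d b
  linear_combination (star (dd d a) * dd d b) * h1 - (m a b - m' a b) * (star (dd d b) * dd d b) * ha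
    - (m a b - m' a b) * hb

lemma tw_single (d a b : Fin 3) :
    tw d (single a b 1) = (dd d a * star (dd d b)) • single a b (1 : ℂ) := by
  ext i j
  simp only [tw_apply, Matrix.smul_apply, single_apply, smul_eq_mul]
  split_ifs with h
  · obtain ⟨rfl, rfl⟩ := h; ring
  · ring

lemma corner_tw (d a b : Fin 3) (m : M3) :
    single a a (1 : ℂ) * tw d m * single b b 1 =
      (dd d a * star (dd d b)) • (single a a (1 : ℂ) * m * single b b 1) := by
  rw [single_mul_mul_single, single_mul_mul_single, smul_single, tw_apply]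
  congr 1
  simp only [smul_eq_mul]; ring

lemma norm_single_le (a b : Fin 3) : ‖(single a b 1 : M3)‖ ≤ 1 := by
  have h1 : star (single a b 1 : M3) * single a b 1 = single b b 1 := by
    rw [star_eq_conjTranspose, conjTranspose_single]; simp
  have h2 : IsStarProjection (single b b 1 : M3) := by
    constructor
    · simp [IsIdempotentElem]
    · simp [IsSelfAdjoint, star_eq_conjTranspose, conjTranspose_single]
  have h3 := CStarRing.norm_star_mul_self (x := (single a b 1 : M3))
  rw [h1] at h3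
  have h4 := h2.norm_le
  nlinarith [norm_nonneg (single a b 1 : M3)]

lemma sum_single_diag : (∑ a : Fin 3, (single a a 1 : M3)) = 1 := by
  ext i j
  simp only [Matrix.sum_apply, single_apply, Matrix.one_apply]
  by_cases h : i = j
  · subst h; simp
  · rw [if_neg h]
    refine Finset.sum_eq_zero fun a _ => ?_
    rw [if_neg]; rintro ⟨rfl, rfl⟩; exact h rfl

section local_lemma
variable {E : Type*} [CStarAlgebra E] (J : M3 →⋆ₐ[ℂ] E)

lemma norm_J_le (m : M3) : ‖J m‖ ≤ ‖m‖ := NonUnitalStarAlgHom.norm_apply_le J m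

lemma norm_J_single (a b : Fin 3) : ‖J (single a b 1)‖ ≤ 1 :=
  (norm_J_le J _).trans (norm_single_le a b)

lemma norm_corner (a b : Fin 3) (y : E) :
    ‖J (single a a 1) * y * J (single b b 1)‖ ≤ ‖y‖ := by
  have h1 := norm_J_single J a a
  have h2 := norm_J_single J b b
  calc _ ≤ ‖J (single a a 1) * y‖ * ‖J (single b b 1)‖ := norm_mul_le _ _
    _ ≤ (‖J (single a a 1)‖ * ‖y‖) * ‖J (single b b 1)‖ := by gcongr; exact norm_mul_le _ _
    _ ≤ (1 * ‖y‖) * 1 := by gcongr
    _ = ‖y‖ := by ring

lemma corner_small (d a b : Fin 3) (T : E) (m : M3) (χ : ℂ) (η : ℝ)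
    (h0 : ‖T - J m‖ ≤ η) (h1 : ‖χ • T - J (tw d m)‖ ≤ η)
    (hχ : 1 ≤ ‖χ - dd d a * star (dd d b)‖) :
    ‖J (single a a 1) * T * J (single b b 1)‖ ≤ 2 * η := by
  set c := dd d a * star (dd d b) with hc
  have hcn : ‖c‖ = 1 := by simp [hc, norm_dd]
  have key : (χ - c) • (J (single a a 1) * T * J (single b b 1)) =
      J (single a a 1) * (χ • T - J (tw d m)) * J (single b b 1) -
        c • (J (single a a 1) * (T - J m) * J (single b b 1)) := by
    have h := congrArg J (corner_tw d a b m)
    rw [map_smul, map_mul, map_mul, map_mul, map_mul] at h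
    simp only [mul_sub, sub_mul, h, smul_sub, sub_smul, mul_smul_comm, smul_mul_assoc]
    abel
  have h2 : ‖(χ - c) • (J (single a a 1) * T * J (single b b 1))‖ ≤ 2 * η := by
    rw [key]
    refine (norm_sub_le _ _).trans ?_
    rw [norm_smul, hcn, one_mul]
    have := norm_corner J a b (χ • T - J (tw d m))
    have := norm_corner J a b (T - J m)
    linarith
  rw [norm_smul] at h2
  nlinarith [norm_nonneg (J (single a a 1) * T * J (single b b 1))]

theorem local_kill [Nontrivial E] (θ : E →ₗ[ℂ] E) (hmul : ∀ x y, θ (x * y) = θ y * θ x)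
    (hone : θ 1 = 1) (hnorm : ∀ x, ‖θ x‖ ≤ ‖x‖) (m1 m2 : M3) :
    ∃ d : Fin 3, ¬ (‖θ (J (tw d (single 0 1 1))) - J (tw d m1)‖ ≤ 1 / 200 ∧
      ‖θ (J (tw d (single 1 2 1))) - J (tw d m2)‖ ≤ 1 / 200) := by
  by_contra hcon
  push Not at hcon
  have h0 := hcon 0
  have h1 := (hcon 1).1
  have h2 := (hcon 2).2
  simp only [tw_zero] at h0
  rw [tw_single, map_smul, map_smul] at h1 h2
  set T1 := θ (J (single 0 1 1)) with hT1
  set T2 := θ (J (single 1 2 1)) with hT2
  have hT1n : ‖T1‖ ≤ 1 := (hnorm _).trans (norm_J_single J _ _)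
  have hT2n : ‖T2‖ ≤ 1 := (hnorm _).trans (norm_J_single J _ _)
  set P : Fin 3 → E := fun a => J (single a a 1) with hP
  have hs2 : 1 ≤ ‖Complex.I - 1‖ := by
    have := Complex.abs_im_le_norm (Complex.I - 1); simpa using this
  have hs3 : 1 ≤ ‖Complex.I + Complex.I‖ := by
    have := Complex.abs_im_le_norm (Complex.I + Complex.I)
    simp only [Complex.add_im, Complex.I_im] at this
    rw [abs_of_pos (by norm_num)] at this; linarith
  have hs4 : 1 ≤ ‖-Complex.I - 1‖ := by
    have := Complex.abs_im_le_norm (-Complex.I - 1); simpa using this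
  have hs5 : 1 ≤ ‖-Complex.I - Complex.I‖ := by
    have : -Complex.I - Complex.I = -(Complex.I + Complex.I) := by ring
    rw [this, norm_neg]; exact hs3
  have hA : ∀ b : Fin 3, ‖P 2 * T1 * P b‖ ≤ 2 * (1 / 200) := by
    intro b
    refine corner_small J 1 2 b T1 m1 _ _ h0.1 h1 ?_
    fin_cases b <;> simp [dd, hs2, hs3]
  have hB : ∀ a b : Fin 3, b ≠ 2 → ‖P a * T2 * P b‖ ≤ 2 * (1 / 200) := by
    intro a b hb
    refine corner_small J 2 a b T2 m2 _ _ h0.2 h2 ?_
    fin_cases a <;> fin_cases b <;> simp [dd, hs4, hs5] at hb ⊢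
  have hsum : ∑ a, P a = 1 := by
    rw [hP, ← map_sum, sum_single_diag, map_one]
  have hPP : ∀ a, P a * P a = P a := by
    intro a; simp only [hP]; rw [← map_mul]; simp
  have hT3 : θ (J (single 0 2 1)) = T2 * T1 := by
    rw [hT1, hT2, ← hmul, ← map_mul]; simp
  have hexp : T2 * T1 = ∑ a, ∑ b, ∑ c, (P a * T2 * P b) * (P b * T1 * P c) := by
    have e : ∀ a b c, (P a * T2 * P b) * (P b * T1 * P c) = P a * (T2 * (P b * (T1 * P c))) := by
      intro a b c
      calc _ = P a * (T2 * ((P b * P b) * (T1 * P c))) := by simp only [mul_assoc]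
        _ = _ := by rw [hPP]
    simp only [e, ← Finset.mul_sum, ← Finset.sum_mul, hsum, mul_one, one_mul]
  have hterm : ∀ a b c, ‖(P a * T2 * P b) * (P b * T1 * P c)‖ ≤ 2 * (1 / 200) := by
    intro a b c
    refine (norm_mul_le _ _).trans ?_
    have e1 : ‖P a * T2 * P b‖ ≤ 1 := (norm_corner J a b T2).trans hT2n
    have e2 : ‖P b * T1 * P c‖ ≤ 1 := (norm_corner J b c T1).trans hT1n
    by_cases hb : b = 2
    · subst hb
      have := hA c
      nlinarith [norm_nonneg (P a * T2 * P 2), norm_nonneg (P 2 * T1 * P c)]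
    · have := hB a b hb
      nlinarith [norm_nonneg (P a * T2 * P b), norm_nonneg (P b * T1 * P c)]
  have hT3n : ‖T2 * T1‖ ≤ 27 * (2 * (1 / 200)) := by
    rw [hexp]
    calc _ ≤ ∑ a : Fin 3, ∑ b : Fin 3, ∑ c : Fin 3, (2 * (1 / 200) : ℝ) := by
          refine (norm_sum_le _ _).trans (Finset.sum_le_sum fun a _ => ?_)
          refine (norm_sum_le _ _).trans (Finset.sum_le_sum fun b _ => ?_)
          exact (norm_sum_le _ _).trans (Finset.sum_le_sum fun c _ => hterm a b c)
      _ = _ := by simp; norm_num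
  have hone' : (1 : E) = ∑ j : Fin 3, θ (J (single 2 j 1)) * (T2 * T1) * θ (J (single j 0 1)) := by
    rw [← hone, ← hsum, map_sum]
    refine Finset.sum_congr rfl fun j _ => ?_
    rw [← hT3, ← hmul, ← hmul, ← map_mul, ← map_mul]
    simp [hP]
  have hfin : ‖(1 : E)‖ ≤ ∑ j : Fin 3, (27 * (2 * (1 / 200)) : ℝ) := by
    rw [hone']
    refine (norm_sum_le _ _).trans (Finset.sum_le_sum fun j _ => ?_)
    have e1 : ‖θ (J (single 2 j 1))‖ ≤ 1 := (hnorm _).trans (norm_J_single J _ _)
    have e2 : ‖θ (J (single j 0 1))‖ ≤ 1 := (hnorm _).trans (norm_J_single J _ _)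
    calc _ ≤ ‖θ (J (single 2 j 1)) * (T2 * T1)‖ * ‖θ (J (single j 0 1))‖ := norm_mul_le _ _
      _ ≤ (‖θ (J (single 2 j 1))‖ * ‖T2 * T1‖) * ‖θ (J (single j 0 1))‖ := by
        gcongr; exact norm_mul_le _ _
      _ ≤ (1 * (27 * (2 * (1 / 200)))) * 1 := by gcongr
      _ = _ := by ring
  rw [norm_one] at hfin
  simp at hfin
  norm_num at hfin

end local_lemma

end Pool.Agent.H55Z.Opp
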