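import Mathlib
import Pool.Agent.H55Z.Opp.Local

set_option autoImplicit false

open scoped Matrix.Norms.L2Operator ENNReal Kronecker
open Matrix

namespace Pool.Agent.H55Z.Opp

abbrev Nd := List (Fin 3)

def dim (s : Nd) : ℕ := Encodable.encode s + 1

lemma dim_injective : Function.Injective dim := by
  intro s t h
  exact Encodable.encode_injective (by simpa [dim] using h)

instance (s : Nd) : NeZero (dim s) := ⟨by simp [dim]⟩

abbrev Ix (s : Nd) := Fin 3 × Fin (dim s)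

abbrev Fb (s : Nd) := Matrix (Ix s) (Ix s) ℂ

noncomputable instance instFb (s : Nd) : CStarAlgebra (Fb s) := Matrix.instCStarAlgebra

/-- the embedding `m ↦ m ⊗ 1` -/
noncomputable def JJ (s : Nd) : M3 →⋆ₐ[ℂ] Fb s where
  toFun m := m ⊗ₖ (1 : Matrix (Fin (dim s)) (Fin (dim s)) ℂ)
  map_one' := by simp
  map_mul' m m' := by rw [← mul_kronecker_mul]; simp
  map_zero' := by simp
  map_add' m m' := by simp [add_kronecker]
  commutes' r := by
    simp [Algebra.algebraMap_eq_smul_one, smul_kronecker]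
  map_star' m := by
    simp [star_eq_conjTranspose, conjTranspose_kronecker]

lemma JJ_injective (s : Nd) : Function.Injective (JJ s) := by
  intro m m' h
  ext a b
  have := congrFun (congrFun h (a, 0)) (b, 0)
  simpa [JJ] using this

/-- twisted embedding -/
noncomputable def io (s : Nd) (d : Fin 3) : M3 →⋆ₐ[ℂ] Fb s := (JJ s).comp (tw d)

lemma io_apply (s : Nd) (d : Fin 3) (m : M3) : io s d m = JJ s (tw d m) := rfl

lemma io_injective (s : Nd) (d : Fin 3) : Function.Injective (io s d) :=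
  (JJ_injective s).comp (tw_injective d)

lemma norm_io_le (s : Nd) (d : Fin 3) (m : M3) : ‖io s d m‖ ≤ ‖m‖ :=
  NonUnitalStarAlgHom.norm_apply_le (io s d) m

lemma central_idem (s : Nd) (z : Fb s) (hz : ∀ y, z * y = y * z) (h2 : z * z = z) :
    z = 0 ∨ z = 1 := by
  obtain ⟨r, hr⟩ : z ∈ Set.range (Matrix.scalar (Ix s)) :=
    mem_range_scalar_of_commute_single fun i j _ => (hz _).symm
  subst hr
  rw [← map_mul] at h2
  have h3 : r * r = r := by
    have := congrFun (congrFun h2 (0, 0)) (0, 0)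
    simpa using this
  have : r = 0 ∨ r = 1 := by
    by_cases h : r = 0
    · exact Or.inl h
    · exact Or.inr (mul_left_cancel₀ h (by simpa using h3))
  rcases this with rfl | rfl
  · left; simp
  · right; simp

def node (x : ℕ → Fin 3) : ℕ → Nd
  | 0 => []
  | n + 1 => x n :: node x n

@[simp] lemma length_node (x : ℕ → Fin 3) (n : ℕ) : (node x n).length = n := by
  induction n with
  | zero => rfl
  | succ n ih => simp [node, ih]

lemma node_eq {x y : ℕ → Fin 3} {n : ℕ} (h : node x n = node y n) : ∀ i < n, x i = y i := by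
  induction n with
  | zero => intro i hi; omega
  | succ n ih =>
    simp only [node, List.cons.injEq] at h
    intro i hi
    rcases Nat.lt_succ_iff_lt_or_eq.mp hi with h1 | rfl
    · exact ih h.2 i h1
    · exact h.1

def Sep (N : ℕ) (X : Finset (ℕ → Fin 3)) : Prop :=
  ∀ x ∈ X, ∀ y ∈ X, x ≠ y → ∀ n ≥ N, node x n ≠ node y n

lemma exists_sep (X : Finset (ℕ → Fin 3)) : ∃ N, Sep N X := by
  classical
  have h : ∀ p : (ℕ → Fin 3) × (ℕ → Fin 3), ∃ N, p.1 ≠ p.2 → ∀ n ≥ N, node p.1 n ≠ node p.2 n := by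
    rintro ⟨x, y⟩
    by_cases hxy : x = y
    · exact ⟨0, fun h => absurd hxy h⟩
    · obtain ⟨i, hi⟩ := Function.ne_iff.mp hxy
      exact ⟨i + 1, fun _ n hn h => hi (node_eq h i (by omega))⟩
  choose g hg using h
  refine ⟨(X ×ˢ X).sup g, fun x hx y hy hxy n hn => hg (x, y) hxy n ?_⟩
  exact le_trans (Finset.le_sup (f := g) (Finset.mk_mem_product hx hy)) hn

lemma Sep.mono {N N' : ℕ} {X : Finset (ℕ → Fin 3)} (h : Sep N X) (hN : N ≤ N') : Sep N' X :=
  fun x hx y hy hxy n hn => h x hx y hy hxy n (le_trans hN hn)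

noncomputable abbrev BB := lp Fb ∞

/-- the finite-dimensional pieces -/
def SS (p : ℕ × Finset (ℕ → Fin 3)) : NonUnitalStarSubalgebra ℂ BB where
  carrier := {f | (∀ x ∈ p.2, ∃ m : M3, ∀ n ≥ p.1, f (node x n) = io (node x n) (x n) m) ∧
    ∀ s : Nd, p.1 ≤ s.length → (∀ x ∈ p.2, s ≠ node x s.length) → f s = 0}
  add_mem' := by
    rintro f g ⟨hf1, hf2⟩ ⟨hg1, hg2⟩
    refine ⟨fun x hx => ?_, fun s hs hx => ?_⟩
    · obtain ⟨m, hm⟩ := hf1 x hx
      obtain ⟨m', hm'⟩ := hg1 x hx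
      exact ⟨m + m', fun n hn => by simp [hm n hn, hm' n hn]⟩
    · simp [hf2 s hs hx, hg2 s hs hx]
  zero_mem' := ⟨fun x _ => ⟨0, fun n _ => by simp⟩, fun s _ _ => by simp⟩
  mul_mem' := by
    rintro f g ⟨hf1, hf2⟩ ⟨hg1, hg2⟩
    refine ⟨fun x hx => ?_, fun s hs hx => ?_⟩
    · obtain ⟨m, hm⟩ := hf1 x hx
      obtain ⟨m', hm'⟩ := hg1 x hx
      exact ⟨m * m', fun n hn => by simp [lp.infty_coeFn_mul, hm n hn, hm' n hn]⟩
    · simp [lp.infty_coeFn_mul, hf2 s hs hx]
  smul_mem' := by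
    rintro c f ⟨hf1, hf2⟩
    refine ⟨fun x hx => ?_, fun s hs hx => ?_⟩
    · obtain ⟨m, hm⟩ := hf1 x hx
      exact ⟨c • m, fun n hn => by simp [hm n hn]⟩
    · simp [hf2 s hs hx]
  star_mem' := by
    rintro f ⟨hf1, hf2⟩
    refine ⟨fun x hx => ?_, fun s hs hx => ?_⟩
    · obtain ⟨m, hm⟩ := hf1 x hx
      exact ⟨star m, fun n hn => by simp [hm n hn, map_star]⟩
    · simp [hf2 s hs hx]

lemma mem_SS {p : ℕ × Finset (ℕ → Fin 3)} {f : BB} : f ∈ SS p ↔
    (∀ x ∈ p.2, ∃ m : M3, ∀ n ≥ p.1, f (node x n) = io (node x n) (x n) m) ∧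
    ∀ s : Nd, p.1 ≤ s.length → (∀ x ∈ p.2, s ≠ node x s.length) → f s = 0 := Iff.rfl

lemma SS_mono {N N' : ℕ} {X X' : Finset (ℕ → Fin 3)} (hN : N ≤ N') (hX : X ⊆ X')
    (hs : Sep N' X') : SS (N, X) ≤ SS (N', X') := by
  intro f hf
  obtain ⟨h1, h2⟩ := mem_SS.mp hf
  refine mem_SS.mpr ⟨fun x hx => ?_, fun s hs' hx => ?_⟩
  · by_cases hxX : x ∈ X
    · obtain ⟨m, hm⟩ := h1 x hxX
      exact ⟨m, fun n hn => hm n (le_trans hN hn)⟩
    · refine ⟨0, fun n hn => ?_⟩
      rw [map_zero]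
      refine h2 _ (by simpa using le_trans hN hn) fun y hy => ?_
      rw [length_node]
      exact hs x hx y (hX hy) (fun h => hxX (h ▸ hy)) n hn
  · exact h2 s (le_trans hN hs') fun x hx' => hx x (hX hx')

lemma SS_directed : Directed (· ≤ ·) SS := by
  classical
  rintro ⟨N, X⟩ ⟨N', X'⟩
  obtain ⟨K, hK⟩ := exists_sep (X ∪ X')
  refine ⟨(max K (max N N'), X ∪ X'), ?_, ?_⟩
  · exact SS_mono (by omega) Finset.subset_union_left (hK.mono (le_max_left _ _))
  · exact SS_mono (by omega) Finset.subset_union_right (hK.mono (le_max_left _ _))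

lemma SS_eq_zero {p : ℕ × Finset (ℕ → Fin 3)} {f : BB} (hf : f ∈ SS p)
    (h : ∀ s : Nd, s.length ≤ p.1 → f s = 0) : f = 0 := by
  obtain ⟨h1, h2⟩ := mem_SS.mp hf
  ext1
  funext s
  rw [lp.coeFn_zero, Pi.zero_apply]
  by_cases hs : s.length ≤ p.1
  · exact h s hs
  by_cases hx : ∀ x ∈ p.2, s ≠ node x s.length
  · exact h2 s (by omega) hx
  push Not at hx
  obtain ⟨x, hx, hsx⟩ := hx
  obtain ⟨m, hm⟩ := h1 x hx
  have hm0 : m = 0 := by
    apply io_injective (node x p.1) (x p.1)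
    rw [← hm p.1 le_rfl, map_zero]
    exact h _ (by simp)
  have := hm s.length (by omega)
  rw [hm0, map_zero] at this
  generalize s.length = n at hsx this
  subst hsx
  exact this

/-- the algebra -/
noncomputable def AA : NonUnitalStarSubalgebra ℂ BB := (⨆ p, SS p).topologicalClosure

instance : IsClosed (AA : Set BB) := NonUnitalStarSubalgebra.isClosed_topologicalClosure _

lemma SS_le_AA (p : ℕ × Finset (ℕ → Fin 3)) : SS p ≤ AA :=
  (le_iSup SS p).trans (NonUnitalStarSubalgebra.le_topologicalClosure _)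

lemma coe_AA : (AA : Set BB) = closure (⋃ p, (SS p : Set BB)) := by
  rw [← NonUnitalStarSubalgebra.coe_iSup_of_directed SS_directed]; rfl

lemma single_mem (s : Nd) (y : Fb s) : (lp.single ∞ s y : BB) ∈ AA := by
  refine SS_le_AA (s.length + 1, ∅) (mem_SS.mpr ⟨by simp, fun t ht _ => ?_⟩)
  refine lp.single_apply_ne ∞ s y ?_
  rintro rfl
  simp at ht

open Classical in
/-- the function supported on a branch -/
noncomputable def brF (x : ℕ → Fin 3) (m : M3) : BB :=
  ⟨fun s => if s = node x s.length then io s (x s.length) m else 0, by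
    refine memℓp_infty ⟨‖m‖, ?_⟩
    rintro _ ⟨s, rfl⟩
    dsimp only
    split_ifs
    · exact norm_io_le _ _ _
    · simp⟩

lemma brF_node (x : ℕ → Fin 3) (m : M3) (n : ℕ) :
    brF x m (node x n) = io (node x n) (x n) m := by
  simp [brF]

lemma brF_off (x : ℕ → Fin 3) (m : M3) (s : Nd) (h : s ≠ node x s.length) : brF x m s = 0 := by
  simp [brF, h]

lemma brF_mem (x : ℕ → Fin 3) (m : M3) : brF x m ∈ AA := by
  refine SS_le_AA (0, {x}) (mem_SS.mpr ⟨fun y hy => ?_, fun s _ hs => ?_⟩)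
  · rw [Finset.mem_singleton] at hy
    subst hy
    exact ⟨m, fun n _ => brF_node _ _ _⟩
  · exact brF_off x m s (hs x (by simp))

lemma approx (f : BB) (hf : f ∈ AA) (x : ℕ → Fin 3) (ε : ℝ) (hε : 0 < ε) :
    ∃ (m : M3) (N : ℕ), ∀ n ≥ N, ‖f (node x n) - io (node x n) (x n) m‖ ≤ ε := by
  classical
  have hf' : f ∈ closure (⋃ p, (SS p : Set BB)) := by rw [← coe_AA]; exact hf
  obtain ⟨g, hg, hfg⟩ := Metric.mem_closure_iff.mp hf' ε hε
  obtain ⟨⟨N, X⟩, hg⟩ := Set.mem_iUnion.mp hg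
  obtain ⟨K, hK⟩ := exists_sep (insert x X)
  have hg' : g ∈ SS (max K N, insert x X) :=
    SS_mono (le_max_right _ _) (Finset.subset_insert _ _) (hK.mono (le_max_left _ _)) hg
  obtain ⟨m, hm⟩ := (mem_SS.mp hg').1 x (Finset.mem_insert_self _ _)
  refine ⟨m, max K N, fun n hn => ?_⟩
  rw [← hm n hn]
  have := lp.norm_apply_le_norm (p := ∞) (by simp) (f - g) (node x n)
  rw [dist_eq_norm] at hfg
  simp only [lp.coeFn_sub, Pi.sub_apply] at this
  linarith

end Pool.Agent.H55Z.Opp
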