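import Mathlib
import Pool.Agent.H55Z.Opp.Alg

set_option autoImplicit false

open scoped Matrix.Norms.L2Operator ENNReal
open Matrix

namespace Pool.Agent.H55Z.Opp

/-- the algebra as a type -/
def AT : Type := AA

noncomputable instance instAT : NonUnitalCStarAlgebra AT :=
  NonUnitalStarSubalgebra.nonUnitalCStarAlgebra AA

noncomputable def AT.val (f : AT) : BB := Subtype.val f

noncomputable def AT.mk (f : BB) (h : f ∈ AA) : AT := ⟨f, h⟩

noncomputable instance : CoeOut AT BB := ⟨AT.val⟩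

lemma AT.prop (f : AT) : (f : BB) ∈ AA := Subtype.property f

lemma AT.ext' {f g : AT} (h : (f : BB) = (g : BB)) : f = g := Subtype.ext h

@[simp] lemma val_mk (f : BB) (h : f ∈ AA) : (AT.mk f h : BB) = f := rfl
@[simp] lemma val_add (f g : AT) : ((f + g : AT) : BB) = (f : BB) + (g : BB) := rfl
@[simp] lemma val_sub (f g : AT) : ((f - g : AT) : BB) = (f : BB) - (g : BB) := rfl
@[simp] lemma val_mul (f g : AT) : ((f * g : AT) : BB) = (f : BB) * (g : BB) := rfl
@[simp] lemma val_star (f : AT) : ((star f : AT) : BB) = star (f : BB) := rfl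
@[simp] lemma val_smul (c : ℂ) (f : AT) : ((c • f : AT) : BB) = c • (f : BB) := rfl
@[simp] lemma val_zero : ((0 : AT) : BB) = 0 := rfl
lemma norm_val (f : AT) : ‖f‖ = ‖(f : BB)‖ := rfl

noncomputable def sg (s : Nd) (y : Fb s) : AT := AT.mk (lp.single ∞ s y) (single_mem s y)

lemma AA_ext {f g : AT} (h : ∀ s, (f : BB) s = (g : BB) s) : f = g := by
  apply AT.ext'
  ext1
  funext s
  exact h s

lemma mul_apply' (f g : AT) (s : Nd) : ((f * g : AT) : BB) s = (f : BB) s * (g : BB) s := by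
  simp [lp.infty_coeFn_mul]

lemma sg_self (s : Nd) (y : Fb s) : (sg s y : BB) s = y := lp.single_apply_self ∞ s y

lemma sg_ne (s : Nd) (y : Fb s) {t : Nd} (h : t ≠ s) : (sg s y : BB) t = 0 :=
  lp.single_apply_ne ∞ s y h

lemma mul_sg (f : AT) (s : Nd) (y : Fb s) : f * sg s y = sg s ((f : BB) s * y) := by
  refine AA_ext fun t => ?_
  rw [mul_apply']
  by_cases h : t = s
  · subst h; rw [sg_self, sg_self]
  · rw [sg_ne _ _ h, sg_ne _ _ h, mul_zero]

lemma sg_mul (f : AT) (s : Nd) (y : Fb s) : sg s y * f = sg s (y * (f : BB) s) := by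
  refine AA_ext fun t => ?_
  rw [mul_apply']
  by_cases h : t = s
  · subst h; rw [sg_self, sg_self]
  · rw [sg_ne _ _ h, sg_ne _ _ h, zero_mul]

lemma sg_inj {s : Nd} {y y' : Fb s} (h : sg s y = sg s y') : y = y' := by
  rw [← sg_self s y, h, sg_self]

lemma sg_zero (s : Nd) : sg s 0 = 0 := by
  apply AT.ext'; simp [sg]

lemma sg_add (s : Nd) (y y' : Fb s) : sg s (y + y') = sg s y + sg s y' := by
  apply AT.ext'; simp [sg, lp.single_add]

lemma sg_smul (s : Nd) (c : ℂ) (y : Fb s) : sg s (c • y) = c • sg s y := by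
  apply AT.ext'; simp [sg, lp.single_smul]

lemma norm_sg (s : Nd) (y : Fb s) : ‖sg s y‖ = ‖y‖ := by
  change ‖(lp.single ∞ s y : BB)‖ = ‖y‖
  exact lp.norm_single (by simp) s y

lemma norm_apply_le' (f : AT) (s : Nd) : ‖(f : BB) s‖ ≤ ‖f‖ :=
  lp.norm_apply_le_norm (p := ∞) (by simp) (f : BB) s

lemma central_val (z : AT) (hz : ∀ y, z * y = y * z) (h2 : z * z = z) (t : Nd) :
    (z : BB) t = 0 ∨ (z : BB) t = 1 := by
  refine central_idem t _ (fun y => ?_) ?_
  · apply sg_inj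
    rw [← mul_sg, ← sg_mul, hz]
  · rw [← mul_apply', h2]

lemma sg_one_central (s : Nd) (y : AT) : sg s 1 * y = y * sg s 1 := by
  rw [sg_mul, mul_sg, one_mul, mul_one]

lemma sg_one_idem (s : Nd) : sg s 1 * sg s 1 = sg s (1 : Fb s) := by
  rw [sg_mul, sg_self, one_mul]

lemma sg_one_ne (s : Nd) : sg s (1 : Fb s) ≠ 0 := by
  intro h
  rw [← sg_zero s] at h
  exact one_ne_zero (sg_inj h)

section anti
variable (Ψ : AT ≃ₗ[ℂ] AT) (hmul : ∀ f g, Ψ (f * g) = Ψ g * Ψ f)
include hmul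

lemma symm_mul (f g : AT) : Ψ.symm (f * g) = Ψ.symm g * Ψ.symm f := by
  apply Ψ.injective
  rw [hmul]; simp

lemma exists_pi (s : Nd) : ∃ t, Ψ (sg s 1) = sg t 1 := by
  have hq0 : Ψ (sg s 1) ≠ 0 := fun h => sg_one_ne s (Ψ.injective (by simpa using h))
  have hqc : ∀ y, Ψ (sg s 1) * y = y * Ψ (sg s 1) := by
    intro y
    obtain ⟨y, rfl⟩ := Ψ.surjective y
    rw [← hmul, ← hmul, sg_one_central]
  have hqi : Ψ (sg s 1) * Ψ (sg s 1) = Ψ (sg s 1) := by rw [← hmul, sg_one_idem]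
  obtain ⟨t, ht⟩ : ∃ t, (Ψ (sg s 1) : BB) t ≠ 0 := by
    by_contra h
    push Not at h
    exact hq0 (AA_ext fun t => by simpa using h t)
  have hq1 : (Ψ (sg s 1) : BB) t = 1 := (central_val _ hqc hqi t).resolve_left ht
  refine ⟨t, ?_⟩
  set r := Ψ.symm (sg t 1) with hr
  have hrc : ∀ y, r * y = y * r := by
    intro y
    obtain ⟨y, rfl⟩ := Ψ.symm.surjective y
    rw [hr, ← symm_mul Ψ hmul, ← symm_mul Ψ hmul, sg_one_central]
  have hri : r * r = r := by rw [hr, ← symm_mul Ψ hmul, sg_one_idem]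
  have h1 : Ψ (sg s 1 * r) = sg t 1 := by
    rw [hmul, hr, LinearEquiv.apply_symm_apply, sg_mul, hq1, one_mul]
  rcases central_val r hrc hri s with h | h
  · rw [sg_mul, h, mul_zero, sg_zero, map_zero] at h1
    exact absurd h1.symm (sg_one_ne t)
  · rw [sg_mul, h, mul_one] at h1
    exact h1

/-- fibre map -/
noncomputable def fib (Ψ : AT ≃ₗ[ℂ] AT) (s t : Nd) : Fb s →ₗ[ℂ] Fb t where
  toFun y := (Ψ (sg s y) : BB) t
  map_add' y y' := by rw [sg_add, map_add]; simp
  map_smul' c y := by rw [sg_smul, map_smul]; simp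

omit hmul in
lemma fib_apply (s t : Nd) (y : Fb s) : fib Ψ s t y = (Ψ (sg s y) : BB) t := rfl

lemma fib_spec {s t : Nd} (h : Ψ (sg s 1) = sg t 1) (f : AT) :
    (Ψ f : BB) t = fib Ψ s t ((f : BB) s) := by
  rw [fib_apply]
  have : sg s ((f : BB) s) = f * sg s 1 := by rw [mul_sg, mul_one]
  rw [this, hmul, h, sg_mul, sg_self, one_mul]

lemma pi_eq {s t : Nd} (h : Ψ (sg s 1) = sg t 1) : s = t := by
  have hinj : Function.Injective (fib Ψ s t) := by
    rw [injective_iff_map_eq_zero]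
    intro y hy
    have h1 : Ψ (sg s y) = 0 := by
      have e : sg s y = sg s y * sg s 1 := by rw [mul_sg, sg_self, mul_one]
      rw [e, hmul, h, sg_mul, ← fib_apply, hy, mul_zero, sg_zero]
    have h2 : sg s y = 0 := Ψ.injective (by simpa using h1)
    rw [← sg_zero s] at h2
    exact sg_inj h2
  have hsurj : Function.Surjective (fib Ψ s t) := by
    intro y
    refine ⟨(Ψ.symm (sg t y) : BB) s, ?_⟩
    rw [← fib_spec Ψ hmul h, LinearEquiv.apply_symm_apply, sg_self]
  have hfr := (LinearEquiv.ofBijective _ ⟨hinj, hsurj⟩).finrank_eq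
  simp only [Module.finrank_matrix, Fintype.card_prod, Fintype.card_fin, Module.finrank_self,
    mul_one] at hfr
  apply dim_injective
  nlinarith [Nat.mul_self_inj.mp hfr]

theorem no_anti (hnorm : ∀ f, ‖Ψ f‖ ≤ ‖f‖) : False := by
  have hfix : ∀ s, Ψ (sg s 1) = sg s 1 := by
    intro s
    obtain ⟨t, ht⟩ := exists_pi Ψ hmul s
    have := pi_eq Ψ hmul ht
    subst this
    exact ht
  have hkill : ∀ (s : Nd) (m : M3 × M3), ∃ d : Fin 3,
      ¬ (‖fib Ψ s s (io s d (single 0 1 1)) - io s d m.1‖ ≤ 1 / 200 ∧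
        ‖fib Ψ s s (io s d (single 1 2 1)) - io s d m.2‖ ≤ 1 / 200) := by
    intro s m
    refine local_kill (JJ s) (fib Ψ s s) (fun x y => ?_) ?_ (fun x => ?_) m.1 m.2
    · rw [fib_apply, fib_apply, fib_apply, ← mul_apply', ← hmul, mul_sg, sg_self]
    · rw [fib_apply, hfix, sg_self]
    · rw [fib_apply]
      exact (norm_apply_le' _ _).trans ((hnorm _).trans (norm_sg _ _).le)
  choose c hc using hkill
  obtain ⟨u, hu⟩ := TopologicalSpace.exists_dense_seq (M3 × M3)
  let nd : ℕ → Nd := fun n => Nat.rec [] (fun n s => c s (u (Nat.unpair n).1) :: s) n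
  let x : ℕ → Fin 3 := fun n => c (nd n) (u (Nat.unpair n).1)
  have hnd : ∀ n, node x n = nd n := by
    intro n
    induction n with
    | zero => rfl
    | succ n ih => simp only [node, ih]; rfl
  obtain ⟨m1, N1, h1⟩ := approx _ (Ψ (AT.mk (brF x (single 0 1 1)) (brF_mem _ _))).prop x (1 / 400)
    (by norm_num)
  obtain ⟨m2, N2, h2⟩ := approx _ (Ψ (AT.mk (brF x (single 1 2 1)) (brF_mem _ _))).prop x (1 / 400)
    (by norm_num)
  obtain ⟨r, hr⟩ := hu.exists_dist_lt (m1, m2) (ε := 1 / 400) (by norm_num)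
  set n := Nat.pair r (max N1 N2) with hn
  have hn1 : max N1 N2 ≤ n := Nat.right_le_pair _ _
  have hx : x n = c (node x n) (u r) := by
    rw [hnd]; simp [x, hn]
  have h1' := h1 n (by omega)
  have h2' := h2 n (by omega)
  rw [fib_spec Ψ hmul (hfix _)] at h1' h2'
  simp only [val_mk, brF_node] at h1' h2'
  rw [Prod.dist_eq, max_lt_iff, dist_eq_norm, dist_eq_norm] at hr
  apply hc (node x n) (u r)
  rw [← hx]
  have tri : ∀ (a : Fb (node x n)) (m m' : M3), ‖a - io (node x n) (x n) m‖ ≤ 1 / 400 →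
      ‖m - m'‖ < 1 / 400 → ‖a - io (node x n) (x n) m'‖ ≤ 1 / 200 := by
    intro a m m' e1 e2
    have e3 := norm_io_le (node x n) (x n) (m - m')
    rw [map_sub] at e3
    have := norm_sub_le_norm_sub_add_norm_sub a (io (node x n) (x n) m) (io (node x n) (x n) m')
    linarith
  exact ⟨tri _ _ _ h1' hr.1, tri _ _ _ h2' hr.2⟩

end anti

theorem isEmpty_anti : IsEmpty (AT ≃⋆ₐ[ℂ] ATᵐᵒᵖ) := by
  refine ⟨fun Φ => ?_⟩
  let Ψ : AT ≃ₗ[ℂ] AT :=
    { toFun := fun f => (Φ f).unop
      invFun := fun f => Φ.symm (MulOpposite.op f)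
      map_add' := fun f g => by simp
      map_smul' := fun c f => by simp
      left_inv := fun f => by simp
      right_inv := fun f => by simp }
  refine no_anti Ψ (fun f g => ?_) (fun f => ?_)
  · simp [Ψ]
  · have := NonUnitalStarAlgHom.norm_apply_le Φ f
    rw [← MulOpposite.norm_unop] at this
    exact this

theorem not_separable : ¬ TopologicalSpace.SeparableSpace AT := by
  intro h
  let F : (ℕ → Fin 3) → AT := fun x => AT.mk (brF x 1) (brF_mem _ _)
  have hF : ∀ x y, x ≠ y → 1 ≤ dist (F x) (F y) := by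
    intro x y hxy
    obtain ⟨i, hi⟩ := Function.ne_iff.mp hxy
    have h1 := norm_apply_le' (F x - F y) (node x (i + 1))
    have h2 : ((F x - F y : AT) : BB) (node x (i + 1)) = 1 := by
      have e : node x (i + 1) ≠ node y (node x (i + 1)).length := by
        rw [length_node]
        exact fun h => hi (node_eq h i (by omega))
      have : ((F x - F y : AT) : BB) = brF x 1 - brF y 1 := rfl
      rw [this, lp.coeFn_sub, Pi.sub_apply, brF_node, brF_off y 1 _ e, map_one, sub_zero]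
    rw [h2, norm_one] at h1
    rwa [dist_eq_norm]
  have hc : Countable (ℕ → Fin 3) := by
    refine Pairwise.countable_of_isOpen_disjoint (s := fun x => Metric.ball (F x) (1 / 2))
      (fun x y hxy => ?_) (fun x => Metric.isOpen_ball) (fun x => ⟨F x, by simp⟩)
    exact Metric.ball_disjoint_ball (by have := hF x y hxy; linarith)
  obtain ⟨e, he⟩ := exists_surjective_nat (ℕ → Fin 3)
  obtain ⟨n, hn⟩ := he fun k => e k k + 1
  have := congrFun hn n
  simp at this

/-- the finite-dimensional pieces, inside the algebra -/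
noncomputable def SA (p : ℕ × Finset (ℕ → Fin 3)) : NonUnitalStarSubalgebra ℂ AT where
  carrier := {f | (f : BB) ∈ SS p}
  add_mem' ha hb := (SS p).add_mem ha hb
  zero_mem' := (SS p).zero_mem
  mul_mem' ha hb := (SS p).mul_mem ha hb
  smul_mem' c _ ha := (SS p).smul_mem c ha
  star_mem' ha := star_mem (s := SS p) ha

lemma mem_SA {p : ℕ × Finset (ℕ → Fin 3)} {f : AT} : f ∈ SA p ↔ (f : BB) ∈ SS p := Iff.rfl

theorem SA_directed : DirectedOn (· ≤ ·) (Set.range SA) := by
  rw [directedOn_range]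
  intro p q
  obtain ⟨r, h1, h2⟩ := SS_directed p q
  exact ⟨r, fun f hf => h1 hf, fun f hf => h2 hf⟩

theorem SA_fd (p : ℕ × Finset (ℕ → Fin 3)) :
    FiniteDimensional ℂ (Submodule.span ℂ (SA p : Set AT)) := by
  have hsp : ∀ f ∈ Submodule.span ℂ (SA p : Set AT), f ∈ SA p := by
    intro f hf
    have : Submodule.span ℂ (SA p : Set AT) ≤ (SA p).toNonUnitalSubalgebra.toSubmodule :=
      Submodule.span_le.mpr fun g hg => hg
    exact this hf
  have : Finite {s : Nd // s.length ≤ p.1} := (List.finite_length_le (Fin 3) p.1).to_subtype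
  let L : Submodule.span ℂ (SA p : Set AT) →ₗ[ℂ] (∀ s : {s : Nd // s.length ≤ p.1}, Fb s) :=
    { toFun := fun f s => ((f : AT) : BB) s
      map_add' := fun f g => by ext1 s; simp
      map_smul' := fun c f => by ext1 s; simp }
  refine FiniteDimensional.of_injective L ?_
  rw [injective_iff_map_eq_zero]
  intro f hf
  apply Subtype.ext
  apply AT.ext'
  exact SS_eq_zero (mem_SA.mp (hsp _ f.2)) fun s hs => congrFun hf ⟨s, hs⟩

theorem SA_dense : Dense (⋃ s ∈ Set.range SA, (s : Set AT)) := by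
  rw [Metric.dense_iff]
  intro f r hr
  have hf' : (f : BB) ∈ closure (⋃ p, (SS p : Set BB)) := by rw [← coe_AA]; exact f.prop
  obtain ⟨g, hg, hfg⟩ := Metric.mem_closure_iff.mp hf' r hr
  obtain ⟨p, hp⟩ := Set.mem_iUnion.mp hg
  refine ⟨AT.mk g (SS_le_AA p hp), ?_, ?_⟩
  · rw [Metric.mem_ball, dist_comm, dist_eq_norm, norm_val, val_sub, val_mk, ← dist_eq_norm]
    exact hfg
  · simp only [Set.mem_iUnion]
    exact ⟨SA p, ⟨p, rfl⟩, hp⟩

theorem main : ∃ (A : Type) (_ : NonUnitalCStarAlgebra A),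
      ¬ TopologicalSpace.SeparableSpace A ∧
      (∃ S : Set (NonUnitalStarSubalgebra ℂ A), DirectedOn (· ≤ ·) S ∧
        (∀ s ∈ S, FiniteDimensional ℂ (Submodule.span ℂ (s : Set A))) ∧
        Dense (⋃ s ∈ S, (s : Set A))) ∧
      IsEmpty (A ≃⋆ₐ[ℂ] Aᵐᵒᵖ) := by
  refine ⟨AT, instAT, not_separable, ⟨Set.range SA, SA_directed, ?_, SA_dense⟩, isEmpty_anti⟩
  rintro _ ⟨p, rfl⟩
  exact SA_fd p

end Pool.Agent.H55Z.Opp
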